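import Pool.Agent.P.MP_db1407_al.Free

/-!
The affine group `x ↦ 2^k x + b` of the 2-adic line, and a permutation commuting with the
2-adic integers whose conjugates freely generate a free group.
-/

namespace Pool.Agent.P.MP_db1407_al

open FreeGroup hiding map_mul map_one map_inv

/-- The maps `x ↦ b + 2^k x`. -/
@[ext] structure Aff where
  b : ℚ_[2]
  k : ℤ

noncomputable instance : Mul Aff := ⟨fun x y => ⟨x.b + 2 ^ x.k * y.b, x.k + y.k⟩⟩
noncomputable instance : One Aff := ⟨⟨0, 0⟩⟩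
noncomputable instance : Inv Aff := ⟨fun x => ⟨-(2 ^ (-x.k) * x.b), -x.k⟩⟩

@[simp] theorem mul_b (x y : Aff) : (x * y).b = x.b + 2 ^ x.k * y.b := rfl
@[simp] theorem mul_k (x y : Aff) : (x * y).k = x.k + y.k := rfl
@[simp] theorem one_b : (1 : Aff).b = 0 := rfl
@[simp] theorem one_k : (1 : Aff).k = 0 := rfl
@[simp] theorem inv_b (x : Aff) : (x⁻¹).b = -(2 ^ (-x.k) * x.b) := rfl
@[simp] theorem inv_k (x : Aff) : (x⁻¹).k = -x.k := rfl

noncomputable instance : Group Aff := Group.ofLeftAxioms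
  (fun x y z => by
    ext
    · simp only [mul_b, mul_k, zpow_add₀ (two_ne_zero (α := ℚ_[2]))]; ring
    · simp [add_assoc])
  (fun x => by ext <;> simp)
  (fun x => by ext <;> simp)

noncomputable instance : MulAction Aff ℚ_[2] where
  smul l x := l.b + 2 ^ l.k * x
  one_smul x := by change (1 : Aff).b + 2 ^ (1 : Aff).k * x = x; simp
  mul_smul l m x := by
    change (l * m).b + 2 ^ (l * m).k * x = l.b + 2 ^ l.k * (m.b + 2 ^ m.k * x)
    simp only [mul_b, mul_k, zpow_add₀ (two_ne_zero (α := ℚ_[2]))]; ring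

theorem smul_def (l : Aff) (x : ℚ_[2]) : l • x = l.b + 2 ^ l.k * x := rfl

theorem norm_two_zpow (k : ℤ) : ‖(2 : ℚ_[2]) ^ k‖ = (2 : ℝ) ^ (-k) := by
  simpa using Padic.norm_p_zpow (p := 2) k

/-- The compact open subgroup of integral translations. -/
def U : Subgroup Aff where
  carrier := {l | l.k = 0 ∧ ‖l.b‖ ≤ 1}
  one_mem' := by simp
  mul_mem' := by
    rintro x y ⟨h1, h2⟩ ⟨h3, h4⟩
    refine ⟨by simp [h1, h3], ?_⟩
    simp only [mul_b, h1, zpow_zero, one_mul]
    exact (IsUltrametricDist.norm_add_le_max _ _).trans (max_le h2 h4)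
  inv_mem' := by
    rintro x ⟨h1, h2⟩
    exact ⟨by simp [h1], by simpa [h1] using h2⟩

theorem mem_U (l : Aff) : l ∈ U ↔ l.k = 0 ∧ ‖l.b‖ ≤ 1 := Iff.rfl

/-- The 2-adic integers as an additive subgroup. -/
def UX : AddSubgroup ℚ_[2] where
  carrier := {x | ‖x‖ ≤ 1}
  zero_mem' := by simp
  add_mem' h1 h2 := (IsUltrametricDist.norm_add_le_max _ _).trans (max_le h1 h2)
  neg_mem' h := by simpa using h

theorem mem_UX (x : ℚ_[2]) : x ∈ UX ↔ ‖x‖ ≤ 1 := Iff.rfl

instance : Countable (ℚ_[2] ⧸ UX) := by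
  refine Function.Surjective.countable (f := fun r : ℚ => ((r : ℚ_[2]) : ℚ_[2] ⧸ UX)) ?_
  intro y
  obtain ⟨x, rfl⟩ := QuotientAddGroup.mk_surjective y
  obtain ⟨r, hr⟩ := Padic.rat_dense (p := 2) x one_pos
  refine ⟨r, QuotientAddGroup.eq.2 ?_⟩
  rw [mem_UX, neg_add_eq_sub]; exact hr.le

/-- The set of closed balls. -/
abbrev Ω : Type := Aff ⧸ U

instance : Countable Ω := by
  refine Function.Surjective.countable
    (f := fun r : ℚ × ℤ => ((⟨(r.1 : ℚ_[2]), r.2⟩ : Aff) : Ω)) ?_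
  intro y
  obtain ⟨x, rfl⟩ := QuotientGroup.mk_surjective y
  obtain ⟨r, hr⟩ := Padic.rat_dense (p := 2) x.b (zpow_pos two_pos (-x.k))
  refine ⟨(r, x.k), QuotientGroup.eq.2 ⟨by simp, ?_⟩⟩
  simp only [mul_b, inv_b, inv_k]
  have : -(2 ^ (-x.k) * (r : ℚ_[2])) + 2 ^ (-x.k) * x.b = 2 ^ (-x.k) * (x.b - r) := by ring
  rw [this, norm_mul, norm_two_zpow, neg_neg]
  calc (2 : ℝ) ^ x.k * ‖x.b - r‖ ≤ 2 ^ x.k * 2 ^ (-x.k) := by gcongr
    _ = 1 := by rw [← zpow_add₀ two_ne_zero]; simp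

instance : Infinite Ω := by
  refine Infinite.of_injective (fun k : ℤ => ((⟨0, k⟩ : Aff) : Ω)) fun k k' h => ?_
  have := (QuotientGroup.eq.1 h).1
  simp only [mul_k, inv_k] at this
  omega

/-- `x` has norm `2^n` -/
def Nm (x : ℚ_[2]) (n : ℤ) : Prop := ‖x‖ = (2 : ℝ) ^ n

theorem Nm.unique {x : ℚ_[2]} {n m : ℤ} (h : Nm x n) (h' : Nm x m) : n = m :=
  zpow_right_injective₀ two_pos (by norm_num) (h.symm.trans h')

theorem Nm.add {x u : ℚ_[2]} {n c : ℤ} (h : Nm x n) (hu : ‖u‖ ≤ (2 : ℝ) ^ c) (hc : c < n) :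
    Nm (x + u) n := by
  have : ‖u‖ < ‖x‖ := by
    rw [h]; exact hu.trans_lt (zpow_lt_zpow_right₀ (by norm_num) hc)
  unfold Nm
  rw [IsUltrametricDist.norm_add_eq_max_of_norm_ne_norm this.ne', max_eq_left this.le, h]

theorem Nm.quot {x x' : ℚ_[2]} {n : ℤ} (h : Nm x n) (hn : 0 < n)
    (e : (x : ℚ_[2] ⧸ UX) = x') : Nm x' n := by
  have := h.add (u := -x + x') (c := 0) (by simpa [mem_UX] using QuotientAddGroup.eq.1 e) hn
  simpa using this

theorem Nm.inv_smul {y : ℚ_[2]} {n c : ℤ} (h : Nm y n) (l : Aff) (hl : ‖l.b‖ ≤ (2 : ℝ) ^ c)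
    (hc : c < n) : Nm (l⁻¹ • y) (n + l.k) := by
  have h1 := h.add (u := -l.b) (by simpa using hl) hc
  have : l⁻¹ • y = 2 ^ (-l.k) * (y + -l.b) := by simp only [smul_def, inv_b, inv_k]; ring
  unfold Nm at h1 ⊢
  rw [this, norm_mul, h1, norm_two_zpow, neg_neg, ← zpow_add₀ two_ne_zero, add_comm]

theorem nm_zpow (n : ℤ) : Nm (2 ^ (-n)) n := by
  unfold Nm; rw [norm_two_zpow, neg_neg]

theorem exists_bound (l : Aff) : ∃ c : ℕ, |l.k| ≤ c ∧ ‖l.b‖ ≤ (2 : ℝ) ^ (c : ℤ) := by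
  obtain ⟨n, hn⟩ := pow_unbounded_of_one_lt ‖l.b‖ (one_lt_two (α := ℝ))
  refine ⟨n + l.k.natAbs, by push_cast; omega, hn.le.trans ?_⟩
  rw [zpow_natCast]
  exact pow_le_pow_right₀ one_le_two (by omega)

theorem exists_code : ∃ e : List (Ω × Bool) × ℕ → ℕ, Function.Injective e ∧
    ∀ W m, ∀ p ∈ W, |(Quotient.out p.1 : Aff).k| ≤ e (W, m) ∧
      ‖(Quotient.out p.1 : Aff).b‖ ≤ (2 : ℝ) ^ (e (W, m) : ℤ) := by
  choose c hc using exists_bound
  obtain ⟨f, hf⟩ := Countable.exists_injective_nat (List (Ω × Bool) × ℕ)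
  refine ⟨fun q => Nat.pair (f q) (q.1.map fun p => c (Quotient.out p.1)).sum,
    fun q q' h => hf (Nat.pair_eq_pair.1 h).1, fun W m p hp => ?_⟩
  have h1 : c (Quotient.out p.1) ≤ (W.map fun p => c (Quotient.out p.1)).sum :=
    List.single_le_sum (by simp) _ (List.mem_map.2 ⟨p, hp, rfl⟩)
  have h2 := h1.trans (Nat.right_le_pair (f (W, m)) _)
  refine ⟨(hc _).1.trans (by exact_mod_cast h2), (hc _).2.trans ?_⟩
  exact zpow_le_zpow_right₀ one_le_two (by exact_mod_cast h2)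

/-- The exponent attached to a code. -/
def Mx (e : ℕ) : ℤ := 2 * (e + 1) ^ 2

theorem Mx_lt {e e' : ℕ} (h : e < e') : Mx e + e + 1 < Mx e' - e' := by
  unfold Mx
  obtain ⟨d, rfl⟩ := Nat.exists_eq_add_of_lt h
  push_cast
  nlinarith [Int.natCast_nonneg e, Int.natCast_nonneg d]

theorem lt_Mx (e : ℕ) : (e : ℤ) < Mx e := by
  unfold Mx; nlinarith [Int.natCast_nonneg e]

theorem lift_word {Y : Type} (τ : Ω → Equiv.Perm Y) (W : List (Ω × Bool)) (y : ℕ → Y)
    (h : ∀ j (hj : j < W.length), (cond W[j].2 (τ W[j].1) (τ W[j].1)⁻¹) (y (j + 1)) = y j) :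
    lift τ (mk W) (y W.length) = y 0 := by
  induction W generalizing y with
  | nil => simp [← one_eq_mk]
  | cons p W ih =>
    have h1 := ih (fun j => y (j + 1)) fun j hj => h (j + 1) (by simpa using hj)
    have h2 := h 0 (by simp)
    rw [lift_mk] at h1 ⊢
    simp only [List.map_cons, List.prod_cons, Equiv.Perm.mul_apply, List.length_cons, h1]
    exact h2

/-- The conjugate of `t` attached to a ball. -/
noncomputable def τ (t : Equiv.Perm ℚ_[2]) (ω : Ω) : Equiv.Perm ℚ_[2] :=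
  MulAction.toPermHom Aff ℚ_[2] (Quotient.out ω) * t *
    (MulAction.toPermHom Aff ℚ_[2] (Quotient.out ω))⁻¹

theorem exists_t : ∃ t : Equiv.Perm ℚ_[2], (∀ x, ∀ u ∈ UX, t (x + u) = t x + u) ∧
    ∀ w : FreeGroup Ω, lift (τ t) w = 1 → w = 1 := by
  classical
  obtain ⟨e, he, hb⟩ := exists_code
  let I := {p : List (Ω × Bool) × ℕ // IsReduced p.1 ∧ p.2 < p.1.length}
  let lt : I → Ω × Bool := fun i => i.1.1[i.1.2]'i.2.2
  let y : List (Ω × Bool) → ℕ → ℚ_[2] := fun W m => 2 ^ (-Mx (e (W, m)))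
  have hnm : ∀ (i : I) (m : ℕ), Nm ((Quotient.out (lt i).1 : Aff)⁻¹ • y i.1.1 m)
      (Mx (e (i.1.1, m)) + (Quotient.out (lt i).1 : Aff).k) := fun i m =>
    (nm_zpow _).inv_smul _ (hb _ m _ (List.getElem_mem _)).2 (lt_Mx _)
  have hk : ∀ (i : I) (m : ℕ), |(Quotient.out (lt i).1 : Aff).k| ≤ e (i.1.1, m) := fun i m =>
    (hb _ m _ (List.getElem_mem _)).1
  have key : ∀ s : I → ℕ, (∀ i i' : I, i.1.1 = i'.1.1 → s i = s i' → (lt i).1 = (lt i').1 →
      i = i') →
      (Function.Injective fun i : I =>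
        (((Quotient.out (lt i).1 : Aff)⁻¹ • y i.1.1 (s i) : ℚ_[2]) : ℚ_[2] ⧸ UX)) ∧
      Set.Infinite (Set.range fun i : I =>
        (((Quotient.out (lt i).1 : Aff)⁻¹ • y i.1.1 (s i) : ℚ_[2]) : ℚ_[2] ⧸ UX))ᶜ := by
    intro s hs
    constructor
    · intro i i' h
      have k1 := abs_le.1 (hk i (s i))
      have k2 := abs_le.1 (hk i' (s i'))
      have k3 := lt_Mx (e (i.1.1, s i))
      have h1 := ((hnm i (s i)).quot (by omega) h).unique (hnm i' (s i'))
      have h2 : e (i.1.1, s i) = e (i'.1.1, s i') := by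
        rcases lt_trichotomy (e (i.1.1, s i)) (e (i'.1.1, s i')) with h | h | h
        · have := Mx_lt h; omega
        · exact h
        · have := Mx_lt h; omega
      have h3 := Prod.ext_iff.1 (he h2)
      simp only at h3
      refine hs i i' h3.1 h3.2 ?_
      rw [h2, add_right_inj] at h1
      rw [← Quotient.out_eq (lt i).1, ← Quotient.out_eq (lt i').1]
      refine QuotientGroup.eq.2 ⟨by simp [h1], ?_⟩
      have h4 := QuotientAddGroup.eq.1 h.symm
      rw [mem_UX, h3.1, h3.2] at h4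
      convert h4 using 2
      simp only [smul_def, mul_b, inv_b, inv_k, h1]
      ring
    · refine Set.infinite_of_injective_forall_mem
        (f := fun n : ℕ => (((2 : ℚ_[2]) ^ (-(Mx n + n + 1)) : ℚ_[2]) : ℚ_[2] ⧸ UX)) ?_ ?_
      · intro n n' h
        have k3 := lt_Mx n
        have h1 := ((nm_zpow _).quot (by omega) h).unique (nm_zpow _)
        rcases lt_trichotomy n n' with h | h | h
        · have := Mx_lt h; omega
        · exact h
        · have := Mx_lt h; omega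
      · rintro n ⟨i, h⟩
        have k1 := abs_le.1 (hk i (s i))
        have k3 := lt_Mx (e (i.1.1, s i))
        have h1 := ((hnm i (s i)).quot (by omega) h).unique (nm_zpow _)
        rcases lt_trichotomy n (e (i.1.1, s i)) with h | h | h
        · have := Mx_lt h; omega
        · subst h; omega
        · have := Mx_lt h; omega
  have red : ∀ i i' : I, i.1.1 = i'.1.1 → i'.1.2 = i.1.2 + 1 → (lt i).1 = (lt i').1 →
      (lt i).2 = (lt i').2 := by
    rintro ⟨⟨W, j⟩, h1, h2⟩ ⟨⟨W', j'⟩, h3, h4⟩ h5 h6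
    simp only at h5 h6 h4
    subst h5 h6
    exact List.isChain_iff_getElem.1 h1 j h4
  obtain ⟨ha, ha'⟩ := key (fun i => if (lt i).2 then i.1.2 + 1 else i.1.2) (by
    intro i i' h1 h2 h3
    refine Subtype.ext (Prod.ext h1 ?_)
    split_ifs at h2 with c1 c2 c2
    · omega
    · exact absurd (red i i' h1 h2.symm h3 ▸ c1) c2
    · exact absurd (red i' i h1.symm h2 h3.symm ▸ c2) c1
    · exact h2)
  obtain ⟨hb, hb'⟩ := key (fun i => if (lt i).2 then i.1.2 else i.1.2 + 1) (by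
    intro i i' h1 h2 h3
    refine Subtype.ext (Prod.ext h1 ?_)
    split_ifs at h2 with c1 c2 c2
    · exact h2
    · exact absurd (red i' i h1.symm h2 h3.symm ▸ c1) c2
    · exact absurd (red i i' h1 h2.symm h3 ▸ c2) c1
    · omega)
  obtain ⟨t, ht, ht'⟩ := exists_perm UX _ _ ha hb ha' hb'
  refine ⟨t, ht, fun w hw => ?_⟩
  have h1 := lift_word (τ t) w.toWord (y w.toWord) (by
    intro j hj
    have := ht' ⟨(w.toWord, j), isReduced_toWord, hj⟩
    simp only [lt] at this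
    cases hc : w.toWord[j].2 with
    | true =>
      simp only [hc, if_true] at this
      simp [τ, this]
    | false =>
      simp only [hc, Bool.false_eq_true, if_false] at this
      simp only [cond_false]
      rw [Equiv.Perm.inv_eq_iff_eq]
      simp [τ, this])
  rw [mk_toWord, hw] at h1
  have h2 : Mx (e (w.toWord, w.toWord.length)) = Mx (e (w.toWord, 0)) :=
    (nm_zpow _).unique (by
      have h3 : y w.toWord w.toWord.length = y w.toWord 0 := h1
      have h4 := nm_zpow (Mx (e (w.toWord, 0)))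
      simp only [y] at h3
      rwa [← h3] at h4)
  have h3 : e (w.toWord, w.toWord.length) = e (w.toWord, 0) := by
    rcases lt_trichotomy (e (w.toWord, w.toWord.length)) (e (w.toWord, 0)) with h | h | h
    · have := Mx_lt h; omega
    · exact h
    · have := Mx_lt h; omega
  have h4 := (Prod.ext_iff.1 (he h3)).2
  exact toWord_eq_nil_iff.1 (List.length_eq_zero_iff.1 h4)

end Pool.Agent.P.MP_db1407_al
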