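import Mathlib

/-!
Free group lemmas and an extension lemma for equivariant permutations.
-/

namespace Pool.Agent.P.MP_db1407_al

open FreeGroup hiding map_mul map_one map_inv

/-- In a free group of infinite rank a nontrivial element fails to commute with some conjugate. -/
theorem exists_not_commute {Ω : Type} [Infinite Ω] (w : FreeGroup Ω) (hw : w ≠ 1) :
    ∃ x : Ω, ¬ Commute w (of x * w * (of x)⁻¹) := by
  classical
  obtain ⟨x, hx⟩ := Infinite.exists_notMem_finset (w.toWord.map Prod.fst).toFinset
  refine ⟨x, fun h => ?_⟩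
  let W : FreeGroup Ω →* Equiv.Perm (Option (FreeGroup Ω)) :=
    { toFun := fun g => Equiv.optionCongr (Equiv.mulLeft g)
      map_one' := by ext a; cases a <;> simp
      map_mul' := fun g g' => by ext a; cases a <;> simp [mul_assoc] }
  let s : Equiv.Perm (Option (FreeGroup Ω)) := Equiv.swap none (some 1)
  let f : Ω → Equiv.Perm (Option (FreeGroup Ω)) := fun ω => if ω = x then s else W (of ω)
  have h1 : lift f w = W w := by
    have : ∀ L : List (Ω × Bool), x ∉ L.map Prod.fst → lift f (mk L) = W (mk L) := by
      intro L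
      induction L with
      | nil => intro _; rw [← one_eq_mk, map_one, map_one]
      | cons a L ih =>
        intro ha
        simp only [List.map_cons, List.mem_cons, not_or] at ha
        have e : mk (a :: L) = mk [a] * mk L := by rw [mul_mk]; rfl
        rw [e, map_mul, map_mul, ih ha.2]
        congr 1
        obtain ⟨ω, b⟩ := a
        have hω : f ω = W (of ω) := if_neg fun h => ha.1 h.symm
        cases b with
        | true => exact (lift_apply_of (f := f) (x := ω)).trans hω
        | false =>
          have : mk [(ω, false)] = (of ω)⁻¹ := rfl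
          rw [this, map_inv, map_inv, lift_apply_of, hω]
    have h2 := this w.toWord (by simpa using hx)
    rwa [mk_toWord] at h2
  have h2 := h.map (lift f)
  rw [map_mul, map_mul, map_inv, lift_apply_of, h1] at h2
  have h3 : f x = s := if_pos rfl
  rw [h3] at h2
  have h4 := congrArg (fun p : Equiv.Perm (Option (FreeGroup Ω)) => p (some 1)) h2.eq
  have hs : s (some w) = some w := Equiv.swap_apply_of_ne_of_ne (by simp) (by simpa using hw)
  simp only [Equiv.Perm.mul_apply, s, Equiv.swap_inv, Equiv.swap_apply_right, W,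
    MonoidHom.coe_mk, OneHom.coe_mk, Equiv.optionCongr_apply, Option.map_none,
    Equiv.swap_apply_left, Option.map_some, Equiv.coe_mulLeft, mul_one] at h4
  simp only [s] at hs
  rw [hs] at h4
  simp only [Option.map_some] at h4
  by_cases h5 : w * w = 1
  · rw [h5, Equiv.swap_apply_right] at h4
    simp at h4
  · rw [Equiv.swap_apply_of_ne_of_ne (by simp) (by simpa using h5)] at h4
    simp [hw] at h4

/-- A nontrivial subgroup of a free group is not perfect. -/
theorem commutator_ne {Ω : Type} (P : Subgroup (FreeGroup Ω)) (hP : P ≠ ⊥) : ⁅P, P⁆ ≠ P := by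
  intro h
  have hne : Nonempty (IsFreeGroup.Generators P) := by
    by_contra hn
    rw [not_nonempty_iff] at hn
    apply hP
    have : MonoidHom.id P = 1 := IsFreeGroup.ext_hom fun a => hn.elim a
    rw [eq_bot_iff]
    intro x hx
    have h1 := congrArg (fun f : P →* P => (f ⟨x, hx⟩ : FreeGroup Ω)) this
    simpa using h1
  obtain ⟨g⟩ := hne
  let f : P →* Multiplicative ℤ := IsFreeGroup.lift fun _ => Multiplicative.ofAdd 1
  have h1 : commutator P = ⊤ := by
    apply Subgroup.map_injective P.subtype_injective
    rw [commutator_def, Subgroup.map_commutator, ← MonoidHom.range_eq_map, P.range_subtype, h]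
  have h2 := Abelianization.commutator_subset_ker f
  rw [h1] at h2
  have h3 : f (IsFreeGroup.of g) = 1 := h2 (Subgroup.mem_top _)
  rw [IsFreeGroup.lift_of] at h3
  exact absurd h3 (by decide)

/-- Extension of a prescribed map to a permutation commuting with the translations from `U`. -/
theorem exists_perm {X : Type} [AddCommGroup X] (U : AddSubgroup X) [Countable (X ⧸ U)]
    {I : Type} (a b : I → X)
    (ha : Function.Injective fun i => (a i : X ⧸ U))
    (hb : Function.Injective fun i => (b i : X ⧸ U))
    (ha' : Set.Infinite (Set.range fun i => (a i : X ⧸ U))ᶜ)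
    (hb' : Set.Infinite (Set.range fun i => (b i : X ⧸ U))ᶜ) :
    ∃ t : Equiv.Perm X, (∀ x, ∀ u ∈ U, t (x + u) = t x + u) ∧ ∀ i, t (a i) = b i := by
  classical
  have sec : ∀ c : I → X, (Function.Injective fun i => (c i : X ⧸ U)) →
      ∃ r : X ⧸ U → X, (∀ y, (r y : X ⧸ U) = y) ∧ ∀ i, r (c i) = c i := by
    intro c hc
    refine ⟨fun y => if h : ∃ i, (c i : X ⧸ U) = y then c h.choose else y.out, fun y => ?_,
      fun i => ?_⟩
    · dsimp only
      split_ifs with h
      · exact h.choose_spec
      · exact Quotient.out_eq y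
    · have h : ∃ j, (c j : X ⧸ U) = c i := ⟨i, rfl⟩
      dsimp only
      rw [dif_pos h, hc h.choose_spec]
  obtain ⟨r, hr, hra⟩ := sec a ha
  obtain ⟨s, hs, hsb⟩ := sec b hb
  have := ha'.to_subtype
  have := hb'.to_subtype
  obtain ⟨e⟩ : Nonempty (↥(Set.range fun i => (a i : X ⧸ U))ᶜ ≃
      ↥(Set.range fun i => (b i : X ⧸ U))ᶜ) := inferInstance
  let σ : X ⧸ U ≃ X ⧸ U := Equiv.subtypeCongr
    (p := fun y => y ∈ Set.range fun i => (a i : X ⧸ U))
    (q := fun y => y ∈ Set.range fun i => (b i : X ⧸ U))
    ((Equiv.ofInjective _ ha).symm.trans (Equiv.ofInjective _ hb)) e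
  have hσ : ∀ i, σ (a i) = b i := by
    intro i
    have h : (a i : X ⧸ U) ∈ Set.range fun i => (a i : X ⧸ U) := ⟨i, rfl⟩
    simp only [σ, Equiv.subtypeCongr, Equiv.trans_apply]
    rw [Equiv.sumCompl_symm_apply_of_pos (p := fun y => y ∈ Set.range fun i => (a i : X ⧸ U)) h]
    simp only [Equiv.sumCongr_apply, Sum.map_inl, Equiv.sumCompl_apply_inl, Equiv.trans_apply,
      Equiv.ofInjective_apply]
    congr 2
    exact Equiv.ofInjective_symm_apply ha i
  refine ⟨⟨fun x => x - r x + s (σ x), fun x => x - s x + r (σ.symm x), fun x => ?_, fun x => ?_⟩,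
    fun x u hu => ?_, fun i => ?_⟩
  · have : ((x - r x + s (σ x) : X) : X ⧸ U) = σ x := by simp [hr, hs]
    simp only [this, Equiv.symm_apply_apply]; abel
  · have : ((x - s x + r (σ.symm x) : X) : X ⧸ U) = σ.symm x := by simp [hr, hs]
    simp only [this, Equiv.apply_symm_apply]; abel
  · have : ((x + u : X) : X ⧸ U) = x := by simp [hu]
    simp only [Equiv.coe_fn_mk, this]; abel
  · simp only [Equiv.coe_fn_mk, hra, hσ, hsb]; abel

end Pool.Agent.P.MP_db1407_al
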