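import Pool.Agent.P.MP_db1407_al.Aff

/-!
The group `G = F(Ω) ⋊ Aff` with the free group discrete and `Aff` open.
-/

namespace Pool.Agent.P.MP_db1407_al

open FreeGroup hiding map_mul map_one map_inv lift
open SemidirectProduct hiding lift

noncomputable instance : TopologicalSpace Aff :=
  TopologicalSpace.induced (fun l => (l.b, l.k)) inferInstance

/-- `Aff` is the product as a set -/
def affEquiv : Aff ≃ ℚ_[2] × ℤ where
  toFun l := (l.b, l.k)
  invFun p := ⟨p.1, p.2⟩

/-- `Aff` is the product as a space -/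
noncomputable def affHomeo : Aff ≃ₜ ℚ_[2] × ℤ := affEquiv.toHomeomorphOfIsInducing ⟨rfl⟩

@[fun_prop] theorem continuous_b : Continuous Aff.b := continuous_fst.comp affHomeo.continuous
@[fun_prop] theorem continuous_k : Continuous Aff.k := continuous_snd.comp affHomeo.continuous
@[fun_prop] theorem continuous_two_zpow : Continuous fun k : ℤ => (2 : ℚ_[2]) ^ k :=
  continuous_of_discreteTopology

instance : IsTopologicalGroup Aff where
  continuous_mul := by
    refine continuous_induced_rng.2 (Continuous.prodMk ?_ ?_)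
    · simp only [mul_b]
      exact (continuous_b.comp continuous_fst).add
        ((continuous_two_zpow.comp (continuous_k.comp continuous_fst)).mul
          (continuous_b.comp continuous_snd))
    · simp only [mul_k]; fun_prop
  continuous_inv := by
    refine continuous_induced_rng.2 (Continuous.prodMk ?_ ?_)
    · simp only [inv_b]
      exact ((continuous_two_zpow.comp continuous_k.neg).mul continuous_b).neg
    · simp only [inv_k]; fun_prop

instance : T2Space Aff := affHomeo.isEmbedding.t2Space
instance : LocallyCompactSpace Aff := affHomeo.isClosedEmbedding.locallyCompactSpace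

theorem isOpen_U : IsOpen (U : Set Aff) := by
  have : (U : Set Aff) = Aff.k ⁻¹' {0} ∩ Aff.b ⁻¹' Metric.closedBall 0 1 := by
    ext l; simp [mem_U]
  rw [this]
  exact ((isOpen_discrete _).preimage continuous_k).inter
    ((IsUltrametricDist.isOpen_closedBall _ one_ne_zero).preimage continuous_b)

instance : DiscreteTopology Ω := QuotientGroup.discreteTopology isOpen_U

instance : TopologicalSpace (FreeGroup Ω) := ⊥
instance : DiscreteTopology (FreeGroup Ω) := ⟨rfl⟩

/-- the action on the free group -/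
noncomputable def ψ : Aff →* MulAut (FreeGroup Ω) where
  toFun l := freeGroupCongr (MulAction.toPerm l)
  map_one' := by
    apply MulEquiv.toMonoidHom_injective
    ext ω; simp
  map_mul' l m := by
    apply MulEquiv.toMonoidHom_injective
    ext ω; simp [mul_smul]

theorem ψ_of (l : Aff) (ω : Ω) : ψ l (of ω) = of (l • ω) := by simp [ψ]

theorem continuous_ψ : Continuous fun p : Aff × FreeGroup Ω => ψ p.1 p.2 := by
  rw [continuous_prod_of_discrete_right]
  intro n
  induction n using FreeGroup.induction_on with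
  | C1 => simpa using continuous_const
  | of ω =>
    simp only [ψ_of]
    exact (continuous_of_discreteTopology (f := fun ω : Ω => of ω)).comp
      (continuous_id.smul continuous_const)
  | inv_of ω ih =>
    simp only [map_inv]
    exact (continuous_of_discreteTopology (f := fun n : FreeGroup Ω => n⁻¹)).comp ih
  | mul x y hx hy =>
    simp only [map_mul]
    exact (continuous_of_discreteTopology (f := fun n : FreeGroup Ω × FreeGroup Ω => n.1 * n.2)).comp
      (hx.prodMk hy)

/-- The group. -/
abbrev G : Type := FreeGroup Ω ⋊[ψ] Aff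

noncomputable instance : TopologicalSpace G :=
  TopologicalSpace.induced (fun g => (g.left, g.right)) inferInstance

/-- `G` is the product as a space -/
noncomputable def gHomeo : G ≃ₜ FreeGroup Ω × Aff :=
  SemidirectProduct.equivProd.toHomeomorphOfIsInducing ⟨rfl⟩

theorem continuous_left : Continuous fun g : G => g.left := continuous_fst.comp gHomeo.continuous
theorem continuous_right : Continuous fun g : G => g.right := continuous_snd.comp gHomeo.continuous

instance : IsTopologicalGroup G where
  continuous_mul := by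
    refine continuous_induced_rng.2 (Continuous.prodMk ?_ ?_)
    · simp only [mul_left]
      exact (continuous_of_discreteTopology
        (f := fun n : FreeGroup Ω × FreeGroup Ω => n.1 * n.2)).comp
        ((continuous_left.comp continuous_fst).prodMk (continuous_ψ.comp
          ((continuous_right.comp continuous_fst).prodMk (continuous_left.comp continuous_snd))))
    · simp only [mul_right]
      exact (continuous_right.comp continuous_fst).mul (continuous_right.comp continuous_snd)
  continuous_inv := by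
    refine continuous_induced_rng.2 (Continuous.prodMk ?_ ?_)
    · have h0 : Continuous fun g : G => (g.left)⁻¹ :=
        (continuous_of_discreteTopology (f := fun n : FreeGroup Ω => n⁻¹)).comp continuous_left
      have h1 : Continuous fun g : G => ((g.right)⁻¹, (g.left)⁻¹) :=
        continuous_right.inv.prodMk h0
      have h2 := continuous_ψ.comp h1
      simp only [inv_left]
      exact h2
    · simp only [inv_right]
      exact continuous_right.inv

instance : T2Space G := gHomeo.isEmbedding.t2Space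
instance : LocallyCompactSpace G := gHomeo.isClosedEmbedding.locallyCompactSpace

/-- translations -/
noncomputable def T (b : ℚ_[2]) : G := inr ⟨b, 0⟩
/-- dilations -/
noncomputable def Dl (k : ℤ) : G := inr ⟨0, k⟩

theorem continuous_T : Continuous T := by
  refine continuous_induced_rng.2 (Continuous.prodMk continuous_const ?_)
  exact continuous_induced_rng.2 (Continuous.prodMk continuous_id continuous_const)

theorem T_add (b c : ℚ_[2]) : T (b + c) = T b * T c := by
  unfold T; rw [← map_mul]; congr 1; ext <;> simp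

theorem T_zero : T 0 = 1 := map_one _

theorem T_conj (b : ℚ_[2]) (k : ℤ) : T (2 ^ k * b) = Dl k * T b * (Dl k)⁻¹ := by
  unfold T Dl; rw [← map_inv, ← map_mul, ← map_mul]; congr 1; ext <;> simp

theorem T_int (K : Subgroup G) (b : ℚ_[2]) (h : T b ∈ K) (n : ℤ) : T (n * b) ∈ K := by
  have hneg : ∀ c, T c ∈ K → T (-c) ∈ K := fun c hc => by
    have : T (-c) = (T c)⁻¹ := eq_inv_of_mul_eq_one_left (by rw [← T_add]; simp [T_zero])
    rw [this]; exact K.inv_mem hc
  induction n with
  | zero => simp [T_zero]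
  | succ n ih => push_cast at ih ⊢; rw [add_mul, one_mul, T_add]; exact K.mul_mem ih h
  | pred n ih =>
    push_cast at ih ⊢
    rw [sub_mul, one_mul, sub_eq_add_neg, T_add]; exact K.mul_mem ih (hneg _ h)

theorem exists_small (z : ℚ_[2]) : ∃ k : ℤ, ‖2 ^ k * z‖ ≤ 1 := by
  obtain ⟨c, -, hc⟩ := exists_bound ⟨z, 0⟩
  refine ⟨c, ?_⟩
  rw [norm_mul, norm_two_zpow]
  calc (2 : ℝ) ^ (-(c : ℤ)) * ‖z‖ ≤ 2 ^ (-(c : ℤ)) * 2 ^ (c : ℤ) := by gcongr
    _ = 1 := by rw [← zpow_add₀ two_ne_zero]; simp

theorem compactly_generated : ∃ K : Set G, IsCompact K ∧ Subgroup.closure K = ⊤ := by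
  refine ⟨T '' Metric.closedBall 0 1 ∪ {Dl 1, inl (of ((1 : Aff) : Ω))},
    ((isCompact_closedBall _ _).image continuous_T).union (Set.toFinite _).isCompact, ?_⟩
  set K := Subgroup.closure (T '' Metric.closedBall 0 1 ∪ {Dl 1, inl (of ((1 : Aff) : Ω))})
  have hD : ∀ k, Dl k ∈ K := fun k => by
    have h1 : Dl 1 ∈ K := Subgroup.subset_closure (Or.inr (Or.inl rfl))
    have h2 : ∀ k k', Dl (k + k') = Dl k * Dl k' := fun k k' => by
      unfold Dl; rw [← map_mul]; congr 1; ext <;> simp
    have h0 : Dl 0 = 1 := map_one _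
    induction k with
    | zero => rw [h0]; exact K.one_mem
    | succ n ih => rw [h2]; exact K.mul_mem ih h1
    | pred n ih =>
      have : Dl (-n - 1) = Dl (-n) * (Dl 1)⁻¹ := by
        rw [eq_mul_inv_iff_mul_eq, ← h2]; simp
      rw [this]; exact K.mul_mem ih (K.inv_mem h1)
  have hT : ∀ b, T b ∈ K := fun b => by
    obtain ⟨k, hk⟩ := exists_small b
    have h1 : T (2 ^ k * b) ∈ K := Subgroup.subset_closure (Or.inl ⟨_, by simpa using hk, rfl⟩)
    have : b = 2 ^ (-k) * (2 ^ k * b) := by
      rw [← mul_assoc, ← zpow_add₀ two_ne_zero]; simp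
    rw [this, T_conj]
    exact K.mul_mem (K.mul_mem (hD _) h1) (K.inv_mem (hD _))
  have hL : ∀ l : Aff, (inr l : G) ∈ K := fun l => by
    have : (inr l : G) = T l.b * Dl l.k := by
      unfold T Dl; rw [← map_mul]; congr 1; ext <;> simp
    rw [this]; exact K.mul_mem (hT _) (hD _)
  have hN : ∀ n : FreeGroup Ω, (inl n : G) ∈ K := fun n => by
    have hof : ∀ ω : Ω, (inl (of ω) : G) ∈ K := fun ω => by
      obtain ⟨l, rfl⟩ := QuotientGroup.mk_surjective ω
      have : (l : Ω) = l • ((1 : Aff) : Ω) := by simp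
      rw [this, ← ψ_of, inl_aut]
      exact K.mul_mem (K.mul_mem (hL _) (Subgroup.subset_closure (Or.inr (Or.inr rfl)))) (hL _)
    induction n using FreeGroup.induction_on with
    | C1 => rw [map_one]; exact K.one_mem
    | of ω => exact hof ω
    | inv_of ω ih => rw [map_inv]; exact K.inv_mem ih
    | mul x y hx hy => rw [map_mul]; exact K.mul_mem hx hy
  rw [eq_top_iff]
  intro g _
  rw [← inl_left_mul_inr_right g]
  exact K.mul_mem (hN _) (hL _)

theorem exists_inl_mem (M : Subgroup G) [hM : M.Normal] (h : M ≠ ⊥) :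
    ∃ n : FreeGroup Ω, n ≠ 1 ∧ (inl n : G) ∈ M := by
  classical
  obtain ⟨⟨g, hg⟩, hg1⟩ := Subgroup.ne_bot_iff_exists_ne_one.1 h
  by_contra hn
  push Not at hn
  have h1 : ∀ ω : Ω, g.left * of (g.right • ω) * g.left⁻¹ = of ω := by
    intro ω
    have e : g * (inl (of ω) * g⁻¹ * (inl (of ω))⁻¹) =
        inl (g.left * of (g.right • ω) * g.left⁻¹ * (of ω)⁻¹) := by
      have e1 : g = inl g.left * inr g.right := (inl_left_mul_inr_right g).symm
      rw [← ψ_of, map_mul, map_mul, map_mul, inl_aut]
      simp only [map_inv]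
      generalize (inl g.left : G) = a at e1 ⊢
      generalize (inr g.right : G) = b at e1 ⊢
      rw [e1]
      group
    by_contra h2
    refine hn _ (fun h3 => h2 (mul_inv_eq_one.1 h3)) ?_
    rw [← e]
    exact M.mul_mem hg (hM.conj_mem _ (M.inv_mem hg) _)
  have h2 : ∀ ω : Ω, g.right • ω = ω := by
    intro ω
    by_contra h3
    have := congrArg (FreeGroup.lift fun ω' : Ω =>
      if ω' = ω then Multiplicative.ofAdd (1 : ℤ) else 1) (h1 ω)
    simp only [map_mul, map_inv, lift_apply_of, if_neg h3, if_true, mul_one, mul_inv_cancel] at this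
    exact absurd this (by decide)
  have h3 : g.right = 1 := by
    have h4 : ∀ k : ℤ, g.right.k = 0 ∧ ‖2 ^ (-k) * g.right.b‖ ≤ 1 := fun k => by
      have := h2 ((⟨0, k⟩ : Aff) : Ω)
      rw [MulAction.Quotient.smul_mk] at this
      have := QuotientGroup.eq.1 this.symm
      simp only [mem_U, smul_eq_mul, mul_k, inv_k, mul_b, inv_b, mul_zero, neg_zero, zero_add,
        add_zero] at this
      exact ⟨by omega, this.2⟩
    ext
    · by_contra h5
      obtain ⟨c, -, hc⟩ := exists_bound ⟨g.right.b⁻¹, 0⟩
      have h6 := (h4 (c + 1)).2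
      have h7 : 0 < ‖g.right.b‖ := norm_pos_iff.2 h5
      rw [norm_mul, norm_two_zpow, neg_neg, zpow_add_one₀ two_ne_zero] at h6
      simp only [norm_inv] at hc
      rw [inv_le_iff_one_le_mul₀ h7] at hc
      linarith
    · exact (h4 0).1
  have h4 : g.left = 1 := by
    by_contra h5
    obtain ⟨x, hx⟩ := exists_not_commute g.left h5
    apply hx
    have := h1 x
    rw [h2, mul_inv_eq_iff_eq_mul] at this
    rw [← this, mul_inv_cancel_right]
  apply hg1
  ext1
  exact SemidirectProduct.ext h4 h3

theorem no_minimal : ¬ ∃ M : Subgroup G, M.Normal ∧ IsClosed (M : Set G) ∧ M ≠ ⊥ ∧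
    ∀ N : Subgroup G, N.Normal → IsClosed (N : Set G) → N ≤ M → N = ⊥ ∨ N = M := by
  rintro ⟨M, hM, -, h1, h2⟩
  let P : Subgroup (FreeGroup Ω) := M.comap inl
  have hP : P.map inl = M ⊓ (rightHom : G →* Aff).ker := by
    rw [Subgroup.map_comap_eq, range_inl_eq_ker_rightHom, inf_comm]
  have hnorm : (P.map (inl : FreeGroup Ω →* G)).Normal := by rw [hP]; infer_instance
  have hcl : ∀ Q : Subgroup (FreeGroup Ω), IsClosed (Q.map (inl : FreeGroup Ω →* G) : Set G) := by
    intro Q
    have : (Q.map (inl : FreeGroup Ω →* G) : Set G) =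
        (fun g : G => g.left) ⁻¹' Q ∩ (fun g : G => g.right) ⁻¹' {1} := by
      ext g
      constructor
      · rintro ⟨n, hn, rfl⟩; exact ⟨hn, rfl⟩
      · rintro ⟨h3, h4⟩; exact ⟨g.left, h3, SemidirectProduct.ext rfl (Eq.symm h4)⟩
    rw [this]
    exact ((isClosed_discrete _).preimage continuous_left).inter
      (isClosed_singleton.preimage continuous_right)
  obtain ⟨n, hn1, hn⟩ := exists_inl_mem M h1
  have hle : ⁅P, P⁆ ≤ P := Subgroup.commutator_le_left _ _
  rcases h2 (⁅P, P⁆.map inl) (by rw [Subgroup.map_commutator]; infer_instance) (hcl _)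
    ((Subgroup.map_mono hle).trans (hP ▸ inf_le_left)) with h | h
  · rw [Subgroup.map_eq_bot_iff_of_injective _ inl_injective] at h
    obtain ⟨x, hx⟩ := exists_not_commute n hn1
    apply hx
    have hn' : n ∈ P := hn
    have hPn : P.Normal := hM.comap _
    have := Subgroup.commutator_mem_commutator hn' (hPn.conj_mem _ hn' (of x))
    rw [h, Subgroup.mem_bot] at this
    exact commutatorElement_eq_one_iff_commute.1 this
  · refine commutator_ne P (fun h0 => hn1 ?_) (le_antisymm hle ?_)
    · have hn' : n ∈ P := hn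
      rwa [h0, Subgroup.mem_bot] at hn'
    · intro x hx
      have hx' : (inl x : G) ∈ M := hx
      rw [← h] at hx'
      obtain ⟨y, hy, e⟩ := hx'
      rwa [← inl_injective e]

section action

variable {t : Equiv.Perm ℚ_[2]} (ht : ∀ x, ∀ u ∈ UX, t (x + u) = t x + u)
include ht

theorem τ_mk (l : Aff) : τ t (l : Ω) =
    MulAction.toPermHom Aff ℚ_[2] l * t * (MulAction.toPermHom Aff ℚ_[2] l)⁻¹ := by
  obtain ⟨⟨u, hu⟩, e⟩ := QuotientGroup.mk_out_eq_mul U l
  have h1 : MulAction.toPermHom Aff ℚ_[2] u * t = t * MulAction.toPermHom Aff ℚ_[2] u := by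
    ext x
    simp only [Equiv.Perm.mul_apply, MulAction.toPermHom_apply, MulAction.toPerm_apply, smul_def,
      hu.1, zpow_zero, one_mul]
    rw [add_comm u.b x, ht x u.b hu.2, add_comm]
  unfold τ
  rw [e, map_mul, mul_assoc _ _ t, h1]
  group

theorem τ_smul (l : Aff) (ω : Ω) : τ t (l • ω) =
    MulAction.toPermHom Aff ℚ_[2] l * τ t ω * (MulAction.toPermHom Aff ℚ_[2] l)⁻¹ := by
  obtain ⟨m, rfl⟩ := QuotientGroup.mk_surjective ω
  rw [MulAction.Quotient.smul_mk, τ_mk ht, τ_mk ht, smul_eq_mul, map_mul]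
  group

/-- The action on the 2-adic line. -/
noncomputable def Θ : G →* Equiv.Perm ℚ_[2] :=
  SemidirectProduct.lift (FreeGroup.lift (τ t)) (MulAction.toPermHom Aff ℚ_[2]) (by
    intro l
    ext1 ω
    simp only [MonoidHom.comp_apply, MulEquiv.coe_toMonoidHom, ψ_of, lift_apply_of, τ_smul ht,
      MulAut.conj_apply])

theorem Θ_inl (n : FreeGroup Ω) : Θ ht (inl n) = FreeGroup.lift (τ t) n := lift_inl _ _ _ _

theorem Θ_inr (l : Aff) (x : ℚ_[2]) : Θ ht (inr l) x = l.b + 2 ^ l.k * x := by
  unfold Θ; rw [lift_inr]; rfl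

theorem Θ_T (b x : ℚ_[2]) : Θ ht (T b) x = b + x := by
  unfold T; rw [Θ_inr]; simp

omit ht in
theorem continuous_of_comm {f : ℚ_[2] → ℚ_[2]} (hf : ∀ x, ∀ u ∈ UX, f (x + u) = f x + u) :
    Continuous f := by
  rw [continuous_iff_continuousAt]
  intro x
  refine ContinuousAt.congr (f := fun y => f x + (y - x)) (by fun_prop) ?_
  filter_upwards [Metric.closedBall_mem_nhds x one_pos] with y hy
  rw [← hf x (y - x) (by simpa [mem_UX, dist_eq_norm] using hy)]
  simp

theorem continuous_lift (n : FreeGroup Ω) : Continuous (FreeGroup.lift (τ t) n) := by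
  have ha : ∀ l : Aff, Continuous (MulAction.toPermHom Aff ℚ_[2] l) := fun l => by
    change Continuous fun x => l.b + 2 ^ l.k * x
    fun_prop
  have ht' : ∀ x, ∀ u ∈ UX, (t⁻¹ : Equiv.Perm ℚ_[2]) (x + u) = (t⁻¹ : Equiv.Perm ℚ_[2]) x + u := by
    intro x u hu
    rw [Equiv.Perm.inv_eq_iff_eq, ht _ _ hu]; simp
  induction n using FreeGroup.induction_on with
  | C1 => rw [map_one]; exact continuous_id
  | of ω =>
    rw [lift_apply_of, τ, ← map_inv]
    exact (ha _).comp ((continuous_of_comm ht).comp (ha _))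
  | inv_of ω _ =>
    rw [map_inv, lift_apply_of, τ, mul_inv_rev, mul_inv_rev, inv_inv, ← map_inv _ (Quotient.out ω)]
    exact (ha _).comp ((continuous_of_comm ht').comp (ha _))
  | mul x y hx hy => rw [map_mul]; exact hx.comp hy

theorem continuous_orbit : Continuous fun g : G => Θ ht g 0 := by
  have : (fun g : G => Θ ht g 0) = fun g : G => FreeGroup.lift (τ t) g.left g.right.b := by
    funext g
    conv_lhs => rw [← inl_left_mul_inr_right g, map_mul, Equiv.Perm.mul_apply, Θ_inr, Θ_inl]
    simp
  rw [this]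
  have h : Continuous fun p : FreeGroup Ω × ℚ_[2] => FreeGroup.lift (τ t) p.1 p.2 :=
    continuous_prod_of_discrete_left.2 fun n => continuous_lift ht n
  exact h.comp (continuous_left.prodMk (continuous_b.comp continuous_right))

/-- The stabilizer of `0`. -/
noncomputable def H : Subgroup G := 
  (MulAction.stabilizer (Equiv.Perm ℚ_[2]) (0 : ℚ_[2])).comap (Θ ht)

theorem mem_H (g : G) : g ∈ H ht ↔ Θ ht g 0 = 0 := Iff.rfl

theorem H_closed : IsClosed (H ht : Set G) :=
  isClosed_eq (continuous_orbit ht) continuous_const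

theorem T_mem_H (b : ℚ_[2]) : T b ∈ H ht ↔ b = 0 := by rw [mem_H, Θ_T, add_zero]

theorem H_ne_top : H ht ≠ ⊤ := fun h =>
  one_ne_zero ((T_mem_H ht 1).1 (h ▸ Subgroup.mem_top _))

theorem H_not_open : ¬ IsOpen (H ht : Set G) := by
  intro h
  have h1 := h.preimage continuous_T
  have : T ⁻¹' (H ht : Set G) = {0} := by ext b; exact T_mem_H ht b
  rw [this] at h1
  exact not_isOpen_singleton _ h1

theorem T_mul_mem (g : G) : T (-Θ ht g 0) * g ∈ H ht := by
  rw [mem_H, map_mul, Equiv.Perm.mul_apply, Θ_T]; simp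

theorem H_maximal (K : Subgroup G) (hK : IsClosed (K : Set G)) (h : H ht ≤ K) :
    K = H ht ∨ K = ⊤ := by
  by_cases h1 : K ≤ H ht
  · exact Or.inl (le_antisymm h1 h)
  right
  obtain ⟨g, hg, hg'⟩ := SetLike.not_le_iff_exists.1 h1
  set y := -Θ ht g 0 with hy
  have hy0 : y ≠ 0 := fun h0 => hg' (neg_eq_zero.1 h0)
  have h2 : T y ∈ K := (K.mul_mem_cancel_right hg).1 (h (T_mul_mem ht g))
  have hD : ∀ k, Dl k ∈ K := fun k => h (by rw [mem_H, Dl, Θ_inr]; simp)
  have h3 : ∀ z, T z ∈ K := fun z => by
    obtain ⟨k, hk⟩ := exists_small (z / y)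
    have h4 : T (2 ^ (-k) * y) ∈ K := by
      rw [T_conj]; exact K.mul_mem (K.mul_mem (hD _) h2) (K.inv_mem (hD _))
    have h5 : ∀ u : ℤ_[2], T ((u : ℚ_[2]) * (2 ^ (-k) * y)) ∈ K := fun u => by
      refine PadicInt.denseRange_intCast.induction_on u ?_ fun n => ?_
      · exact hK.preimage (continuous_T.comp (continuous_subtype_val.mul continuous_const))
      · simpa using T_int K _ h4 n
    have h6 := h5 ⟨_, hk⟩
    have : (2 : ℚ_[2]) ^ k * (z / y) * (2 ^ (-k) * y) = z := by
      rw [zpow_neg]; field_simp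
    simpa only [this] using h6
  rw [eq_top_iff]
  intro g _
  exact (K.mul_mem_cancel_left (h3 _)).1 (h (T_mul_mem ht g))

theorem H_core (hf : ∀ w : FreeGroup Ω, FreeGroup.lift (τ t) w = 1 → w = 1) :
    (H ht).normalCore = ⊥ := by
  by_contra h
  obtain ⟨n, hn1, hn⟩ := exists_inl_mem _ h
  refine hn1 (hf n ?_)
  ext y
  have := (mem_H ht _).1 (hn (T (-y)))
  have e : (T (-y))⁻¹ = T y := inv_eq_of_mul_eq_one_right (by rw [← T_add]; simp [T_zero])
  rw [e, map_mul, map_mul, Equiv.Perm.mul_apply, Equiv.Perm.mul_apply, Θ_T, Θ_T, Θ_inl,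
    add_zero, neg_add_eq_zero] at this
  exact this.symm

end action

end Pool.Agent.P.MP_db1407_al
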